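import Pool.Agent.Y347.CO.ApFin

set_option autoImplicit false

/-!
# Progression-free sets and circuits of constant depth

Sets of integers in `[0, 2^n)` without `k`-term arithmetic progressions, and circuits of constant
depth which read the `n` binary digits of an integer. Let `loss = d (2 ^ (d + 9) w ℓ) ^ d`.
-/

namespace Pool.Agent.Results.MP_0f71ae_nt.ConstantDepthCircuits

open Finset

/-- `A` contains no arithmetic progression with `k` terms and positive difference. -/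
def APFree (k : ℕ) (A : Finset ℕ) : Prop := ∀ a d : ℕ, 0 < d → ∃ t < k, a + t * d ∉ A

/-- `F ⊆ [0, 2^n)` is decided by a circuit of depth at most `d` with at most `2 ^ ℓ` nodes, which
reads the `n` binary digits; its gates are AND and OR gates of any number of wires and arbitrary
gates with at most `w` wires, negations are free. -/
def Decided (n w ℓ d : ℕ) (F : Finset ℕ) : Prop :=
  F ⊆ range (2 ^ n) ∧ ∃ (C : Y603.MS.Circuit w n) (o : C.Node), C.leak = ∅ ∧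
    Nat.card C.Node ≤ 2 ^ ℓ ∧ (∀ v, C.depth v ≤ d) ∧
    ∀ a < 2 ^ n, a ∈ F ↔ C.val o (fun i => a.testBit i) = true

/-- `loss w ℓ d = d (2 ^ (d + 9) w ℓ) ^ d` -/
def loss (w ℓ d : ℕ) : ℕ := d * (2 ^ (d + 9) * (w * ℓ)) ^ d

/-- **Theorem.** (1) A set without `k`-term progressions, `k ≤ 2^m`, which is a union of `T` decided
sets has at most `T 2^n 2^(2 ℓ + 3 m + 7 - ⌊n / m⌋ / (2^(m+2) loss))` elements.
(2) Let `F` be decided, `A` any set without `k`-term progressions, `1 ≤ m ≤ n`, and suppose that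
subsets of `[0, 2^m)` without `k`-term progressions have at most `r` elements. Then for `ε > 0`
`|A ∩ F| ≤ (r / 2^m + ε) |F| + (2 m / ε) 2^n 2^(2 ℓ + 4 - (ε / 2) ⌊n / m⌋ / loss)`.
(3) For every `k` and `δ > 0` there is `c > 0` such that `|A ∩ F| ≤ δ |F| + 2^n 2^(2 ℓ + 1/c -
c n / loss)` for all decided `F` and all `A` without `k`-term progressions.
(4) For all `k, w, d, C` there are `c > 0` and `n₀` such that for `n ≥ n₀` every set without `k`-term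
progressions with at least `2^n 2^(- C √n)` elements which is a union of at most `2^(C √n)` decided
sets needs `ℓ ≥ c n^(1 / (2 d))`. (5) The same for the largest subsets of `[0, 2^n)` without
3-term progressions. -/
theorem result :
    (∀ n k m w ℓ d T : ℕ, 1 ≤ w → 1 ≤ ℓ → 1 ≤ d → 1 ≤ m → k ≤ 2 ^ m →
      ∀ (A : Finset ℕ) (F : Fin T → Finset ℕ), APFree k A → (∀ i, Decided n w ℓ d (F i)) →
        (∀ a, a ∈ A ↔ ∃ i, a ∈ F i) →
        (A.card : ℝ) ≤ T * 2 ^ n *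
          (2 : ℝ) ^ (2 * ℓ + 3 * m + 7 - (n / m : ℕ) / (2 ^ (m + 2) * loss w ℓ d) : ℝ)) ∧
    (∀ n k m w ℓ d r : ℕ, 1 ≤ w → 1 ≤ ℓ → 1 ≤ d → 1 ≤ m → m ≤ n →
      (∀ B ⊆ range (2 ^ m), APFree k B → B.card ≤ r) →
      ∀ F A : Finset ℕ, Decided n w ℓ d F → APFree k A → ∀ ε : ℝ, 0 < ε →
        ((A ∩ F).card : ℝ) ≤ (r / 2 ^ m + ε) * F.card +
          2 * m / ε * (2 ^ n * (2 : ℝ) ^ (2 * ℓ + 4 - ε / 2 * (n / m : ℕ) / loss w ℓ d : ℝ))) ∧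
    (∀ (k : ℕ) (δ : ℝ), 0 < δ → ∃ c : ℝ, 0 < c ∧ ∀ n w ℓ d : ℕ, 1 ≤ w → 1 ≤ ℓ → 1 ≤ d →
      ∀ F A : Finset ℕ, Decided n w ℓ d F → APFree k A →
        ((A ∩ F).card : ℝ) ≤ δ * F.card +
          2 ^ n * (2 : ℝ) ^ (2 * ℓ + 1 / c - c * n / loss w ℓ d : ℝ)) ∧
    (∀ k w d : ℕ, 1 ≤ w → 1 ≤ d → ∀ C : ℝ, 0 ≤ C → ∃ c : ℝ, 0 < c ∧ ∃ n₀ : ℕ, ∀ n ≥ n₀,
      ∀ ℓ T : ℕ, 1 ≤ ℓ → (T : ℝ) ≤ (2 : ℝ) ^ (C * √n) →
      ∀ (A : Finset ℕ) (F : Fin T → Finset ℕ), APFree k A → (∀ i, Decided n w ℓ d (F i)) →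
        (∀ a, a ∈ A ↔ ∃ i, a ∈ F i) → (2 : ℝ) ^ n * (2 : ℝ) ^ (-(C * √n)) ≤ A.card →
        c * (n : ℝ) ^ (1 / (2 * d) : ℝ) ≤ ℓ) ∧
    (∀ w d : ℕ, 1 ≤ w → 1 ≤ d → ∀ C : ℝ, 0 ≤ C → ∃ c : ℝ, 0 < c ∧ ∃ n₀ : ℕ, ∀ n ≥ n₀,
      ∀ ℓ T : ℕ, 1 ≤ ℓ → (T : ℝ) ≤ (2 : ℝ) ^ (C * √n) →
      ∀ (A : Finset ℕ) (F : Fin T → Finset ℕ), ThreeAPFree (A : Set ℕ) →
        (∀ i, Decided n w ℓ d (F i)) → (∀ a, a ∈ A ↔ ∃ i, a ∈ F i) →
        A.card = rothNumberNat (2 ^ n) → c * (n : ℝ) ^ (1 / (2 * d) : ℝ) ≤ ℓ) := by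
  have hloss : ∀ w ℓ d : ℕ, ((loss w ℓ d : ℕ) : ℝ) = (d : ℝ) * Y347.CO.KK d w ℓ := by
    intro w ℓ d
    rw [loss, Y347.CO.KK, Nat.cast_mul]
  have h1 : ∀ n k m w ℓ d T : ℕ, 1 ≤ w → 1 ≤ ℓ → 1 ≤ d → 1 ≤ m → k ≤ 2 ^ m →
      ∀ (A : Finset ℕ) (F : Fin T → Finset ℕ), APFree k A → (∀ i, Decided n w ℓ d (F i)) →
        (∀ a, a ∈ A ↔ ∃ i, a ∈ F i) →
        (A.card : ℝ) ≤ T * 2 ^ n *
          (2 : ℝ) ^ (2 * ℓ + 3 * m + 7 - (n / m : ℕ) / (2 ^ (m + 2) * loss w ℓ d) : ℝ) := by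
    intro n k m w ℓ d T hw hℓ hd1 hm hk A F hA hF hun
    have h1 : ∀ i, ((F i).card : ℝ) ≤ 2 ^ n *
        (2 : ℝ) ^ (2 * ℓ + 3 * m + 7 - (n / m : ℕ) / (2 ^ (m + 2) * loss w ℓ d) : ℝ) := by
      intro i
      obtain ⟨hF0, C, o, hleak, hs, hd, hCF⟩ := hF i
      rw [hloss]
      exact Y347.CO.ApRel.ap_small C hleak hℓ hw hd1 hs hd o hm hk (F i) hF0 hCF
        (Y347.CO.ApRel.free_mono (fun a ha => (hun a).2 ⟨i, ha⟩) hA)
    have h2 : A.card ≤ ∑ i, (F i).card := by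
      refine (card_le_card (t := univ.biUnion F) fun a ha => ?_).trans card_biUnion_le
      obtain ⟨i, hi⟩ := (hun a).1 ha
      exact mem_biUnion.2 ⟨i, mem_univ _, hi⟩
    have h3 : (A.card : ℝ) ≤ ∑ i, ((F i).card : ℝ) := by exact_mod_cast h2
    refine h3.trans ((sum_le_sum fun i _ => h1 i).trans (le_of_eq ?_))
    rw [sum_const, card_univ, Fintype.card_fin, nsmul_eq_mul, mul_assoc]
  have h4 : ∀ k w d : ℕ, 1 ≤ w → 1 ≤ d → ∀ C : ℝ, 0 ≤ C → ∃ c : ℝ, 0 < c ∧ ∃ n₀ : ℕ, ∀ n ≥ n₀,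
      ∀ ℓ T : ℕ, 1 ≤ ℓ → (T : ℝ) ≤ (2 : ℝ) ^ (C * √n) →
      ∀ (A : Finset ℕ) (F : Fin T → Finset ℕ), APFree k A → (∀ i, Decided n w ℓ d (F i)) →
        (∀ a, a ∈ A ↔ ∃ i, a ∈ F i) → (2 : ℝ) ^ n * (2 : ℝ) ^ (-(C * √n)) ≤ A.card →
        c * (n : ℝ) ^ (1 / (2 * d) : ℝ) ≤ ℓ := by
    intro k w d hw hd1 C hC
    have hk : k ≤ 2 ^ (k + 1) :=
      (Nat.lt_two_pow_self (n := k)).le.trans (Nat.pow_le_pow_right (by norm_num) (by omega))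
    set κ : ℝ := d * (2 ^ (d + 9) * w) ^ d with hκ
    have hκ0 : 0 < κ := by
      have a1 : (0 : ℝ) < d := by exact_mod_cast hd1
      have a2 : (0 : ℝ) < w := by exact_mod_cast hw
      positivity
    obtain ⟨c, hc, h⟩ := Y347.CO.ApRel.num_lower (k + 1) (by omega) κ C hκ0 hC d hd1
    refine ⟨c, hc, k + 1, fun n hn ℓ T hℓ hT A F hA hF hun hcard => ?_⟩
    apply h n ℓ hn hℓ
    have h2 := h1 n k (k + 1) w ℓ d T hw hℓ hd1 (by omega) hk A F hA hF hun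
    have e1 : ((loss w ℓ d : ℕ) : ℝ) = κ * (ℓ : ℝ) ^ d := by
      rw [loss, hκ]
      push_cast
      rw [← mul_assoc (2 ^ (d + 9) : ℝ), mul_pow _ (ℓ : ℝ), mul_assoc]
    rw [e1] at h2
    set Y : ℝ := (n / (k + 1) : ℕ) / (2 ^ (k + 1 + 2) * (κ * (ℓ : ℝ) ^ d)) with hY
    have h3 : (2 : ℝ) ^ n * (2 : ℝ) ^ (-(C * √n)) ≤
        2 ^ n * (2 : ℝ) ^ (C * √n + (2 * ℓ + 3 * (k + 1 : ℕ) + 7 - Y)) := by
      refine hcard.trans (h2.trans ?_)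
      rw [Real.rpow_add (by norm_num), ← mul_assoc, mul_comm (T : ℝ)]
      apply mul_le_mul_of_nonneg_right _ (by positivity)
      exact mul_le_mul_of_nonneg_left hT (by positivity)
    have h5 := le_of_mul_le_mul_left h3 (by positivity : (0 : ℝ) < 2 ^ n)
    have h6 := (Real.rpow_le_rpow_left_iff (by norm_num : (1 : ℝ) < 2)).1 h5
    linarith
  refine ⟨h1, ?_, ?_, h4, ?_⟩
  · intro n k m w ℓ d r hw hℓ hd1 hm hmn hr F A hF hA ε hε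
    obtain ⟨hF0, C, o, hleak, hs, hd, hCF⟩ := hF
    rw [hloss]
    exact Y347.CO.ApRel.rel_ap C hleak hℓ hw hd1 hs hd o hm hmn F A hF0 hCF hA r hr hε
  · intro k δ hδ
    obtain ⟨c, hc, h⟩ := Y347.CO.ApRel.ap_rel_c k δ hδ
    refine ⟨c, hc, fun n w ℓ d hw hℓ hd1 F A hF hA => ?_⟩
    obtain ⟨hF0, C, o, hleak, hs, hd, hCF⟩ := hF
    rw [hloss]
    exact h n w ℓ d C hleak hℓ hw hd1 hs hd o F A hF0 hCF hA
  · intro w d hw hd1 C hC
    obtain ⟨c, hc, n₀, h⟩ := h4 3 w d hw hd1 (max C 5) (le_trans hC (le_max_left _ _))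
    refine ⟨c, hc, max n₀ 12, fun n hn ℓ T hℓ hT A F hA hF hun hcard => ?_⟩
    have hs0 : 0 ≤ √(n : ℝ) := Real.sqrt_nonneg _
    refine h n ((le_max_left _ _).trans hn) ℓ T hℓ (hT.trans ?_) A F ?_ hF hun ?_
    · apply Real.rpow_le_rpow_of_exponent_le (by norm_num)
      exact mul_le_mul_of_nonneg_right (le_max_left _ _) hs0
    · intro a e he
      by_contra hcon
      push Not at hcon
      have a0 : a ∈ A := by simpa using hcon 0 (by norm_num)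
      have a1 : a + e ∈ A := by simpa using hcon 1 (by norm_num)
      have a2 : a + 2 * e ∈ A := hcon 2 (by norm_num)
      have := hA (mem_coe.2 a0) (mem_coe.2 a1) (mem_coe.2 a2) (by ring)
      omega
    · rw [hcard]
      refine le_trans ?_ (Y347.CO.ApRel.roth_large n ((le_max_right _ _).trans hn))
      apply mul_le_mul_of_nonneg_left _ (by positivity)
      apply Real.rpow_le_rpow_of_exponent_le (by norm_num)
      have := mul_le_mul_of_nonneg_right (le_max_right C 5) hs0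
      linarith

end Pool.Agent.Results.MP_0f71ae_nt.ConstantDepthCircuits
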