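import Pool.Agent.Y607.LP.Digits

/-!
# Arithmetic progressions in sets given by formulas on the digits

Let `b ≥ 3` and `N = b ^ n`. We consider the subsets `A` of `[0, N)` which are unions of `T` sets,
each decided by a Boolean formula with at most `S` leaves whose leaves are arbitrary tests of single
digits in base `b` (and, or and not gates, any depth, each digit may be read many times). Every
subset is of this kind for some `S`. We show that, if `A` contains no progression of length `k ≤ b`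
(it is enough that no progression with a difference all of whose digits are `0` or `1` is contained
in `A`), then

`|A| ≤ 2 T N exp(- c (log N) ^ 2 / (S + log N))`, with `c > 0` depending on `b` and `k` only.

So for formulas of linear size, `S ≤ K n`, the bound is `N ^ (1 - δ)`; such sets have a power
saving, in contrast to Behrend's sets. Behrend's sets and the extremal sets for `r_3(b ^ n)` need
formulas with at least `δ n ^ (3 / 2)` leaves, even as unions of `exp (C √ n)` sets.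
-/

set_option autoImplicit false

namespace Pool.Agent.Results.MP_0f71ae_nt.DigitFormulas

open Pool.Agent.H564R2.QF Pool.Agent.Y607.LP Finset

theorem bound (b : ℕ) (hb : 3 ≤ b) (n S T : ℕ) (A : Finset ℕ) (hA : Union b n S T A)
    (hfree : ThreeAPFree (A : Set ℕ)) :
    (A.card : ℝ) ≤ 2 * T * (b : ℝ) ^ n *
      Real.exp (-(cstG * n ^ 2 / ((b : ℝ) ^ 6 * 3 ^ 2 * (S + n)))) := by
  have h := ap_bound 3 b n S T (by norm_num) hb A hA (by
    intro a d hd _ hcon
    have h0 := hcon 0 (by norm_num)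
    have h1 := hcon 1 (by norm_num)
    have h2 := hcon 2 (by norm_num)
    simp only [zero_mul, add_zero, one_mul] at h0 h1
    have := hfree (mem_coe.2 h0) (mem_coe.2 h1) (mem_coe.2 h2) (by ring)
    omega)
  calc (A.card : ℝ) ≤ _ := h
    _ = _ := by push_cast; ring

/-- There is a constant `c > 0` such that the following holds.

(1) Let `2 ≤ k ≤ b`, let `A` be a union of `T` sets of integers in `[0, b ^ n)`, each of them
decided by a formula with at most `S` leaves which test single digits in base `b`. If `A` contains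
no progression `a, a + d, …, a + (k - 1) d` such that `d > 0` and all digits of `d` are `0` or `1`,
then `|A| ≤ 2 T b ^ n exp (- c n ^ 2 / (k ^ 2 b ^ 6 (S + n)))`.

(2) If `b ≥ 3`, for every `K` there is `δ > 0` such that for `S ≤ K n` such a union without
three-term progressions has at most `2 T N ^ (1 - δ)` elements, where `N = b ^ n`.

(3) If `b ≥ 3`, for every `C` there are `δ > 0` and `n₀` such that for `n ≥ n₀` no set without
three-term progressions which has at least `N exp (- C √ n)` elements is a union of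
`T ≤ exp (C √ n)` sets decided by formulas with fewer than `δ n ^ (3 / 2)` leaves.

(4) In particular this holds for the sets with `r_3(b ^ n)` elements. -/
theorem result : ∃ c : ℝ, 0 < c ∧
    (∀ (k b n S T : ℕ) (A : Finset ℕ), 2 ≤ k → k ≤ b → Union b n S T A →
      (∀ a d : ℕ, 0 < d → (∀ i, d / b ^ i % b ≤ 1) → ¬ ∀ i < k, a + i * d ∈ A) →
      (A.card : ℝ) ≤ 2 * T * (b : ℝ) ^ n *
        Real.exp (-(c * n ^ 2 / ((k : ℝ) ^ 2 * b ^ 6 * (S + n))))) ∧
    (∀ b : ℕ, 3 ≤ b → ∀ K : ℝ, ∃ δ : ℝ, 0 < δ ∧ ∀ (n S T : ℕ) (A : Finset ℕ), (S : ℝ) ≤ K * n →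
      Union b n S T A → ThreeAPFree (A : Set ℕ) →
      (A.card : ℝ) ≤ 2 * T * ((b : ℝ) ^ n) ^ (1 - δ)) ∧
    (∀ b : ℕ, 3 ≤ b → ∀ C : ℝ, ∃ (δ : ℝ) (n₀ : ℕ), 0 < δ ∧ ∀ n : ℕ, n₀ ≤ n →
      ∀ (S T : ℕ) (A : Finset ℕ), Union b n S T A → (T : ℝ) ≤ Real.exp (C * Real.sqrt n) →
      ThreeAPFree (A : Set ℕ) → (b : ℝ) ^ n * Real.exp (-(C * Real.sqrt n)) ≤ A.card →
      δ * ((n : ℝ) * Real.sqrt n) ≤ S) ∧
    (∀ b : ℕ, 3 ≤ b → ∀ C : ℝ, ∃ (δ : ℝ) (n₀ : ℕ), 0 < δ ∧ ∀ n : ℕ, n₀ ≤ n →
      ∀ (S T : ℕ) (A : Finset ℕ), Union b n S T A → (T : ℝ) ≤ Real.exp (C * Real.sqrt n) →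
      ThreeAPFree (A : Set ℕ) → A.card = rothNumberNat (b ^ n) →
      δ * ((n : ℝ) * Real.sqrt n) ≤ S) := by
  have hc := cstG_pos
  have h3 : ∀ b : ℕ, 3 ≤ b → ∀ C : ℝ, ∃ (δ : ℝ) (n₀ : ℕ), 0 < δ ∧ ∀ n : ℕ, n₀ ≤ n →
      ∀ (S T : ℕ) (A : Finset ℕ), Union b n S T A → (T : ℝ) ≤ Real.exp (C * Real.sqrt n) →
      ThreeAPFree (A : Set ℕ) → (b : ℝ) ^ n * Real.exp (-(C * Real.sqrt n)) ≤ A.card →
      δ * ((n : ℝ) * Real.sqrt n) ≤ S := by
    intro b hb C
    have hbr : (3 : ℝ) ≤ b := by exact_mod_cast hb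
    set D : ℝ := 2 * |C| + 1 with hD
    have hDpos : 0 < D := by positivity
    set δ : ℝ := cstG / (2 * ((b : ℝ) ^ 6 * 9) * D) with hδ
    have hδpos : 0 < δ := by positivity
    refine ⟨δ, ⌈(1 / δ) ^ 2⌉₊ + 1, hδpos, ?_⟩
    intro n hn S T A hA hT hfree hlow
    have hn1 : 1 ≤ n := by omega
    have hnr : (1 : ℝ) ≤ n := by exact_mod_cast hn1
    have hsq : Real.sqrt n * Real.sqrt n = n := Real.mul_self_sqrt (by positivity)
    have hsq1 : 1 ≤ Real.sqrt n := by
      rw [Real.one_le_sqrt]; exact hnr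
    have hδn : 1 ≤ δ * Real.sqrt n := by
      have h1 : (1 / δ) ^ 2 ≤ n := by
        have h2 := Nat.le_ceil ((1 / δ) ^ 2)
        have h3 : ((⌈(1 / δ) ^ 2⌉₊ + 1 : ℕ) : ℝ) ≤ n := by exact_mod_cast hn
        push_cast at h3
        linarith
      have h2 : 1 / δ ≤ Real.sqrt n := Real.le_sqrt_of_sq_le h1
      rw [div_le_iff₀ hδpos] at h2
      linarith
    have hb1 := bound b hb n S T A hA hfree
    have hSn : (0 : ℝ) < S + n := by positivity
    set X : ℝ := cstG * n ^ 2 / ((b : ℝ) ^ 6 * 3 ^ 2 * (S + n)) with hX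
    have hbn : (0 : ℝ) < (b : ℝ) ^ n := by positivity
    -- compare
    have hCabs : C ≤ |C| := le_abs_self C
    have h4 : (b : ℝ) ^ n * Real.exp (-(C * Real.sqrt n)) ≤
        (b : ℝ) ^ n * (2 * Real.exp (C * Real.sqrt n) * Real.exp (-X)) := by
      refine hlow.trans (hb1.trans ?_)
      calc 2 * (T : ℝ) * (b : ℝ) ^ n * Real.exp (-X)
          = (b : ℝ) ^ n * (2 * T * Real.exp (-X)) := by ring
        _ ≤ _ := by gcongr
    have h5 := le_of_mul_le_mul_left h4 hbn
    have h6 : (2 : ℝ) ≤ Real.exp (Real.sqrt n) := by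
      have := Real.add_one_le_exp (Real.sqrt n)
      linarith
    have h7 : Real.exp (-(C * Real.sqrt n)) ≤
        Real.exp (Real.sqrt n + C * Real.sqrt n + -X) := by
      rw [Real.exp_add, Real.exp_add]
      refine h5.trans ?_
      gcongr
    have h8 := Real.exp_le_exp.1 h7
    have h9 : X ≤ D * Real.sqrt n := by
      have : C * Real.sqrt n ≤ |C| * Real.sqrt n := by gcongr
      rw [hD]
      nlinarith
    rw [hX, div_le_iff₀ (by positivity)] at h9
    -- 2 δ n sqrt n ≤ S + n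
    have h10 : 2 * δ * (n * Real.sqrt n) ≤ S + n := by
      have h11 : 2 * δ * (((b : ℝ) ^ 6 * 9) * D) = cstG := by
        rw [hδ]; field_simp
      have h12 : cstG * (n : ℝ) ^ 2 = (2 * δ * (n * Real.sqrt n)) *
          (((b : ℝ) ^ 6 * 9) * D * Real.sqrt n) := by
        calc cstG * (n : ℝ) ^ 2 = (2 * δ * (((b : ℝ) ^ 6 * 9) * D)) * (n * n) := by
              rw [h11]; ring
          _ = (2 * δ * (((b : ℝ) ^ 6 * 9) * D)) * (n * (Real.sqrt n * Real.sqrt n)) := by
              rw [hsq]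
          _ = _ := by ring
      have h13 : (2 * δ * (n * Real.sqrt n)) * (((b : ℝ) ^ 6 * 9) * D * Real.sqrt n) ≤
          (S + n) * (((b : ℝ) ^ 6 * 9) * D * Real.sqrt n) := by
        rw [← h12]
        refine h9.trans (le_of_eq ?_)
        ring
      exact le_of_mul_le_mul_right h13 (by positivity)
    have h14 : (n : ℝ) ≤ δ * (n * Real.sqrt n) := by nlinarith
    linarith
  refine ⟨cstG, hc, ?_, ?_, h3, ?_⟩
  · intro k b n S T A hk hkb hA hfree
    refine (ap_bound k b n S T hk hkb A hA hfree).trans (le_of_eq ?_)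
    have : (b : ℝ) ^ 6 * (k : ℝ) ^ 2 * (S + n) = (k : ℝ) ^ 2 * b ^ 6 * (S + n) := by ring
    rw [this]
    ring
  · intro b hb K
    have hbr : (3 : ℝ) ≤ b := by exact_mod_cast hb
    have hlog : 0 < Real.log b := Real.log_pos (by linarith)
    refine ⟨cstG / ((b : ℝ) ^ 6 * 9 * (|K| + 1) * Real.log b), by positivity, ?_⟩
    intro n S T A hS hA hfree
    have hb1 := bound b hb n S T A hA hfree
    refine hb1.trans ?_
    have hbn : (0 : ℝ) < (b : ℝ) ^ n := by positivity
    rcases Nat.eq_zero_or_pos n with hn | hn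
    · subst hn
      simp
    have hnr : (0 : ℝ) < n := by exact_mod_cast hn
    have h1 : ((b : ℝ) ^ n) ^ (1 - cstG / ((b : ℝ) ^ 6 * 9 * (|K| + 1) * Real.log b)) =
        (b : ℝ) ^ n * Real.exp (-(cstG / ((b : ℝ) ^ 6 * 9 * (|K| + 1)) * n)) := by
      rw [Real.rpow_sub hbn, Real.rpow_one, Real.rpow_def_of_pos hbn, Real.log_pow,
        Real.exp_neg, div_eq_mul_inv]
      congr 3
      field_simp
    rw [h1]
    have h2 : Real.exp (-(cstG * (n : ℝ) ^ 2 / ((b : ℝ) ^ 6 * 3 ^ 2 * (S + n)))) ≤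
        Real.exp (-(cstG / ((b : ℝ) ^ 6 * 9 * (|K| + 1)) * n)) := by
      apply Real.exp_le_exp.2
      apply neg_le_neg
      have h3 : (S : ℝ) + n ≤ (|K| + 1) * n := by
        have := le_abs_self K
        nlinarith
      have hSn : (0 : ℝ) < S + n := by positivity
      rw [le_div_iff₀ (by positivity)]
      calc cstG / ((b : ℝ) ^ 6 * 9 * (|K| + 1)) * n * ((b : ℝ) ^ 6 * 3 ^ 2 * (S + n))
          = cstG * n * (S + n) / (|K| + 1) := by field_simp; ring
        _ ≤ cstG * n * ((|K| + 1) * n) / (|K| + 1) := by gcongr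
        _ = cstG * n ^ 2 := by field_simp
    calc 2 * (T : ℝ) * (b : ℝ) ^ n *
          Real.exp (-(cstG * (n : ℝ) ^ 2 / ((b : ℝ) ^ 6 * 3 ^ 2 * (S + n))))
        ≤ 2 * (T : ℝ) * (b : ℝ) ^ n * Real.exp (-(cstG / ((b : ℝ) ^ 6 * 9 * (|K| + 1)) * n)) := by
          gcongr
      _ = _ := by ring
  · intro b hb C
    have hbr : (3 : ℝ) ≤ b := by exact_mod_cast hb
    have hlog : 0 < Real.log b := Real.log_pos (by linarith)
    obtain ⟨δ, n₀, hδ, h⟩ := h3 b hb (max C (4 * Real.sqrt (Real.log b)))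
    refine ⟨δ, n₀, hδ, ?_⟩
    intro n hn S T A hA hT hfree hcard
    refine h n hn S T A hA (hT.trans (Real.exp_le_exp.2 ?_)) hfree ?_
    · gcongr
      exact le_max_left _ _
    · rw [hcard]
      have h1 := Behrend.roth_lower_bound (N := b ^ n)
      refine le_trans ?_ h1
      push_cast
      gcongr
      rw [Real.log_pow, Real.sqrt_mul (by positivity), neg_mul]
      apply neg_le_neg
      calc 4 * (Real.sqrt n * Real.sqrt (Real.log b)) =
            4 * Real.sqrt (Real.log b) * Real.sqrt n := by ring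
        _ ≤ _ := by
            gcongr
            exact le_max_right _ _

end Pool.Agent.Results.MP_0f71ae_nt.DigitFormulas
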